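import Pool.Agent.Helper18.ES.Forms

open Real Set MeasureTheory

namespace Pool.Agent.Results.MP_a499ba_nt.EveryScale

open ArithmeticFunction in
/-- Two-sided lower bounds, at every scale, for `M(t) = ∑_{n ≤ t} μ(n)` and for
`L(t) - √t / ζ(1/2)`, where `L(t) = ∑_{n ≤ t} λ(n)`.

`A` is one of `M`, `-M`, `L - √/ζ(1/2)`, `√/ζ(1/2) - L`; and either `(β, k) = (1/2, 0)`, or the
Riemann zeta function has a zero with real part `β ≥ 1/2` of order at least `k + 1`. -/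
theorem result (A : ℝ → ℝ)
    (hA : (∀ t, A t = ∑ n ∈ Finset.Icc 1 ⌊t⌋₊, ((moebius n : ℤ) : ℝ)) ∨
      (∀ t, A t = -∑ n ∈ Finset.Icc 1 ⌊t⌋₊, ((moebius n : ℤ) : ℝ)) ∨
      (∀ t, A t = ∑ n ∈ Finset.Icc 1 ⌊t⌋₊, ((liouville n : ℤ) : ℝ)
        - √t / (riemannZeta (1 / 2)).re) ∨
      (∀ t, A t = √t / (riemannZeta (1 / 2)).re
        - ∑ n ∈ Finset.Icc 1 ⌊t⌋₊, ((liouville n : ℤ) : ℝ)))
    (β : ℝ) (k : ℕ)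
    (hβ : (β = 1 / 2 ∧ k = 0) ∨ (1 / 2 ≤ β ∧ ∃ ρ : ℂ, ρ.re = β ∧
      ((k + 1 : ℕ) : ℕ∞) ≤ analyticOrderAt riemannZeta ρ)) :
    -- mean form
    (∀ a : ℝ, 0 < a → a < π → ∃ c : ℝ, 0 < c ∧ ∃ x₀ : ℝ, ∀ x : ℝ, x₀ ≤ x →
      c * (x ^ β * log x ^ k) ≤
        ∫ t in Ioi (1 : ℝ), max (A t) 0 / t * exp (-(a * max (t / x) (x / t) ^ 2))) ∧
    -- pointwise form
    (∀ a : ℝ, a < π → ∃ c : ℝ, 0 < c ∧ ∃ x₀ : ℝ, ∀ x : ℝ, x₀ ≤ x → ∃ t : ℝ, 1 ≤ t ∧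
      c * (x ^ β * log x ^ k) * exp (a * max (t / x) (x / t) ^ 2) ≤ A t) ∧
    -- window form
    (∀ C : ℝ, 1 / (2 * π) < C → ∃ c : ℝ, 0 < c ∧ ∃ Y₀ : ℝ, ∀ Y : ℝ, Y₀ ≤ Y →
      ∃ t : ℝ, Y ≤ t ∧ t ≤ C * Y * log Y ∧ c * (t ^ β * log t ^ k) ≤ A t) := by
  rcases hβ with ⟨rfl, rfl⟩ | ⟨hβ, ρ, rfl, hρ⟩
  · exact Helper18.ES.half_forms hA
  · exact Helper18.ES.all_forms hβ hρ hA

end Pool.Agent.Results.MP_a499ba_nt.EveryScale
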