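import Pool.Agent.Helper11.LV.Uni

/-!
MP_a499ba_nt (Q1, Q2).  The sums of Moebius and Liouville twisted by the primitive real characters: a lower bound for the
distribution of their size.  Of the primitive real characters `χ ≠ 1` of conductor at most `X` a proportion at least
`(1 - ε) exp(-w^(2+ε))`, `w = max(0, log(V / (log log X)^(1/4-ε)))`, oscillates with `V`, for every `V ≤ exp((log X)^(1/2-ε))`.  So
almost all of them oscillate with `(log log X)^(1/4-ε)`, and `X^(1-o(1))` of them with `exp((log X)^(1/2-ε))`.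
-/

namespace Pool.Agent.Results.MP_a499ba_nt.QuadraticTwists

/-- `M(x, χ) = ∑_{n ≤ x} μ(n) χ(n)` (`χ` is real below) -/
noncomputable def M {N : ℕ} (χ : DirichletCharacter ℂ N) (x : ℝ) : ℝ :=
  ∑ n ∈ Finset.Icc 1 ⌊x⌋₊, (ArithmeticFunction.moebius n : ℝ) * (χ n).re

/-- `L(x, χ) = ∑_{n ≤ x} λ(n) χ(n)`, `λ(n) = (-1)^Ω(n)` -/
noncomputable def L {N : ℕ} (χ : DirichletCharacter ℂ N) (x : ℝ) : ℝ :=
  ∑ n ∈ Finset.Icc 1 ⌊x⌋₊, (-1 : ℝ) ^ ArithmeticFunction.cardFactors n * (χ n).re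

/-- `L(s, χ)` has a real zero `β`, `1/2 ≤ β < 1`. -/
def RealZero {N : ℕ} (χ : DirichletCharacter ℂ N) : Prop :=
  ∃ (_ : NeZero N) (β : ℝ), 1 / 2 ≤ β ∧ β < 1 ∧ DirichletCharacter.LFunction χ β = 0

/-- `F x > V √x` for arbitrarily large `x`. -/
def High (F : ℝ → ℝ) (V : ℝ) : Prop := ∀ x₀ : ℝ, ∃ x : ℝ, x₀ ≤ x ∧ V * Real.sqrt x < F x

/-- `F x < -V √x` for arbitrarily large `x`. -/
def Low (F : ℝ → ℝ) (V : ℝ) : Prop := ∀ x₀ : ℝ, ∃ x : ℝ, x₀ ≤ x ∧ F x < -(V * Real.sqrt x)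

/-- `χ` oscillates with `V`. -/
def Oscillates (V : ℝ) {N : ℕ} (χ : DirichletCharacter ℂ N) : Prop :=
  High (M χ) V ∧ High (L χ) V ∧ (Low (M χ) V ∧ Low (L χ) V ∨ RealZero χ)

/-- The primitive real characters `χ ≠ 1` of conductor `N ≤ X`, as pairs `(N, χ)`. -/
def R (X : ℕ) : Set ((N : ℕ) × DirichletCharacter ℂ N) :=
  {x | 1 ≤ x.1 ∧ x.1 ≤ X ∧ x.2.IsPrimitive ∧ x.2 ^ 2 = 1 ∧ x.2 ≠ 1}

/-- For `0 < ε < 1/4`, `X ≥ X₀(ε)` and every `V` with `0 < V ≤ exp((log X)^(1/2-ε))` a proportion at least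
`(1 - ε) exp(-w^(2+ε))`, `w = max(0, log(V / (log log X)^(1/4-ε)))`, of the `χ` in `R X` oscillates with `V`. -/
theorem result (ε : ℝ) (hε : 0 < ε) (hε' : ε < 1 / 4) :
    ∃ X₀ : ℕ, ∀ X : ℕ, X₀ ≤ X → ∀ V : ℝ, 0 < V → V ≤ Real.exp (Real.log X ^ (1 / 2 - ε)) →
      (1 - ε) * Real.exp (-(max 0 (Real.log (V / Real.log (Real.log X) ^ (1 / 4 - ε))) ^ (2 + ε))) * ((R X).ncard : ℝ) ≤
        ({x ∈ R X | Oscillates V x.2}.ncard : ℝ) :=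
  Pool.Agent.Helper11.LV.size hε hε'

end Pool.Agent.Results.MP_a499ba_nt.QuadraticTwists
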