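import Pool.Agent.Helper96.AF.F4
import Pool.Agent.Helper96.AF.F5
import Pool.Agent.Helper96.AG.F4
import Pool.Agent.Helper66.LJ.Scale
import Pool.Agent.Helper32.KK.AC

/-!
# MP_a499ba_nt: the random models of the Mertens and the Liouville sums, jointly and in every direction

Let `ε p` (`p` prime) be independent random signs with `∑ (P(ε p = 1) - 1/2)² < ∞` (so `ε p = -1` may be prescribed
for finitely many primes), `g` the completely multiplicative function with `g(p) = ε p` (the Liouville function is the choice `ε p = -1`), `L(x)` the sum of `g(n)`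
over `n ≤ x` and `M(x)` the sum over squarefree `n ≤ x`. For every `δ > 0`, almost surely `|M(x)|` and `|L(x)|` are at
most `C √x (log log x)^(1/4 + δ)`, and for all large `X` and all real `a, b` there is `x ∈ [X, X^4]` with
`a M(x) + b L(x) ≥ (|a| + |b|) √x (log log x)^(1/4 - δ)`.
-/

set_option autoImplicit false

namespace Pool.Agent.Results.MP_a499ba_nt.RandomModels

open MeasureTheory ProbabilityTheory

/-- The completely multiplicative function `∏_{p ∣ n} s(p)^{v_p(n)}` attached to the signs `s(p)` of the primes. -/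
noncomputable def completely (s : Nat.Primes → ℝ) (n : ℕ) : ℝ :=
  ∏ p ∈ n.primeFactors.attach, s ⟨p, Nat.prime_of_mem_primeFactors p.2⟩ ^ n.factorization p

/-- The sum of `g(n)` over the squarefree numbers `1 ≤ n ≤ x`. -/
noncomputable def M (g : ℕ → ℝ) (x : ℝ) : ℝ := ∑ n ∈ (Finset.Icc 1 ⌊x⌋₊).filter Squarefree, g n

/-- The sum of `g(n)` over all numbers `1 ≤ n ≤ x`. -/
noncomputable def L (g : ℕ → ℝ) (x : ℝ) : ℝ := ∑ n ∈ Finset.Icc 1 ⌊x⌋₊, g n

/-- The theorem for uniform signs. -/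
theorem uniform (δ : ℝ) (hδ : 0 < δ) {Ω : Type*} [MeasurableSpace Ω] (P : Measure Ω) [IsProbabilityMeasure P]
    (ε : Nat.Primes → Ω → ℝ) (hm : ∀ p, Measurable (ε p)) (hi : iIndepFun ε P)
    (h1 : ∀ p, P {ω | ε p ω = 1} = 1 / 2) (h2 : ∀ p, P {ω | ε p ω = -1} = 1 / 2) :
    ∀ᵐ ω ∂P,
      (∃ C : ℝ, ∀ x : ℝ, 3 ≤ x →
        |M (completely fun p => ε p ω) x| ≤ C * Real.sqrt x * Real.log (Real.log x) ^ (1 / 4 + δ) ∧
        |L (completely fun p => ε p ω) x| ≤ C * Real.sqrt x * Real.log (Real.log x) ^ (1 / 4 + δ)) ∧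
      (∃ X0 : ℝ, ∀ X : ℝ, X0 ≤ X → ∀ a b : ℝ, ∃ x : ℝ, X ≤ x ∧ x ≤ X ^ 4 ∧
        (|a| + |b|) * (Real.sqrt x * Real.log (Real.log x) ^ (1 / 4 - δ)) ≤
          a * M (completely fun p => ε p ω) x + b * L (completely fun p => ε p ω) x) := by
  have hd : 0 < min (δ / 2) (1 / 16) := lt_min (by positivity) (by norm_num)
  have hu := Pool.Agent.Helper96.AF.unif_primes P ε hm hi h2
  have hpma := Pool.Agent.Helper96.AF.ae_pm_primes P ε hm h2 h1
  filter_upwards [Pool.Agent.Helper96.AF.almost_sure δ hδ P (Pool.Agent.Helper96.AF.ext ε) hu hpma,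
    Pool.Agent.Helper96.AG.almost_sureG δ hδ P (Pool.Agent.Helper96.AF.ext ε) hu hpma,
    Pool.Agent.Helper96.AF.almost_sure (min (δ / 2) (1 / 16)) hd P (Pool.Agent.Helper96.AF.ext ε) hu hpma,
    Pool.Agent.Helper96.AG.almost_sureG (min (δ / 2) (1 / 16)) hd P (Pool.Agent.Helper96.AF.ext ε) hu hpma,
    Pool.Agent.Helper66.LJ.joint_low (min (δ / 2) (1 / 16)) hd (min_le_right _ _) P (Pool.Agent.Helper96.AF.ext ε) hu,
    hpma] with ω hM1 hL1 hM2 hL2 hlow hpm
  have e2 : ∀ n : ℕ, completely (fun p => ε p ω) n =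
      Pool.Agent.Helper96.AG.gs (Pool.Agent.Helper96.AF.ext ε) ω n := by
    intro n
    unfold completely Pool.Agent.Helper96.AG.gs
    rw [← Finset.prod_attach n.primeFactors
      (fun p => Pool.Agent.Helper96.AF.ext ε p ω ^ n.factorization p)]
    refine Finset.prod_congr rfl fun p _ => ?_
    unfold Pool.Agent.Helper96.AF.ext
    rw [dif_pos (Nat.prime_of_mem_primeFactors p.2)]
  have e3 : ∀ n : ℕ, (if Squarefree n then completely (fun p => ε p ω) n else 0) =
      Pool.Agent.Helper96.AF.rs (Pool.Agent.Helper96.AF.ext ε) ω n := by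
    intro n
    unfold Pool.Agent.Helper96.AF.rs
    by_cases hn : Squarefree n
    · rw [if_pos hn, if_pos hn, e2]
      unfold Pool.Agent.Helper96.AG.gs
      refine Finset.prod_congr rfl fun p hp => ?_
      have hp1 := Nat.prime_of_mem_primeFactors hp
      have h3 : n.factorization p = 1 := by
        have h4 := hn.natFactorization_le_one p
        have h5 : 0 < n.factorization p :=
          hp1.factorization_pos_of_dvd (Nat.mem_primeFactors.1 hp).2.2 (Nat.dvd_of_mem_primeFactors hp)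
        omega
      rw [h3, pow_one]
    · rw [if_neg hn, if_neg hn]
  have eM : ∀ x : ℝ, M (completely fun p => ε p ω) x =
      ∑ n ∈ Finset.Icc 1 ⌊x⌋₊, Pool.Agent.Helper96.AF.rs (Pool.Agent.Helper96.AF.ext ε) ω n := by
    intro x
    unfold M
    rw [Finset.sum_filter]
    exact Finset.sum_congr rfl fun n _ => e3 n
  have eL : ∀ x : ℝ, L (completely fun p => ε p ω) x =
      ∑ n ∈ Finset.Icc 1 ⌊x⌋₊, Pool.Agent.Helper96.AG.gs (Pool.Agent.Helper96.AF.ext ε) ω n := by
    intro x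
    unfold L
    exact Finset.sum_congr rfl fun n _ => e2 n
  have hll : ∀ x : ℝ, 3 ≤ x → 0 ≤ Real.log (Real.log x) := by
    intro x hx
    refine Real.log_nonneg ?_
    rw [Real.le_log_iff_exp_le (by linarith)]
    have := Real.exp_one_lt_d9
    linarith
  have mono : ∀ {C C' κ x Z : ℝ}, C ≤ C' → 3 ≤ x → |Z| ≤ C * Real.sqrt x * Real.log (Real.log x) ^ κ →
      |Z| ≤ C' * Real.sqrt x * Real.log (Real.log x) ^ κ := by
    intro C C' κ x Z hC hx hZ
    refine hZ.trans ?_
    have h3 : 0 ≤ Real.log (Real.log x) ^ κ := Real.rpow_nonneg (hll x hx) _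
    exact mul_le_mul_of_nonneg_right (mul_le_mul_of_nonneg_right hC (Real.sqrt_nonneg _)) h3
  constructor
  · obtain ⟨C1, hC1⟩ := hM1
    obtain ⟨C2, hC2⟩ := hL1
    refine ⟨max C1 C2, fun x hx => ⟨?_, ?_⟩⟩
    · rw [eM]
      exact mono (le_max_left _ _) hx (hC1 x hx)
    · rw [eL]
      exact mono (le_max_right _ _) hx (hC2 x hx)
  · obtain ⟨C1, hC1⟩ := hM2
    obtain ⟨C2, hC2⟩ := hL2
    obtain ⟨X0, h0⟩ := Pool.Agent.Helper66.LJ.all_dir (min (δ / 2) (1 / 16)) (max (max C1 C2) 0) hd (min_le_right _ _)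
      (le_max_right _ _) (M (completely fun p => ε p ω)) (L (completely fun p => ε p ω))
      (fun x hx => by
        rw [eM]
        exact mono ((le_max_left _ _).trans (le_max_left _ _)) hx (hC1 x hx))
      (fun x hx => by
        rw [eL]
        exact mono ((le_max_right _ _).trans (le_max_left _ _)) hx (hC2 x hx))
      (by
        obtain ⟨r0, h3⟩ := hlow
        refine ⟨r0, fun r hr p hp => ?_⟩
        obtain ⟨n, hn, hn2⟩ := h3 r hr p hp
        refine ⟨n, hn, ?_⟩
        have k1 : M (completely fun p => ε p ω) (n : ℝ) = Pool.Agent.Helper96.AF.MM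
            (Pool.Agent.Helper96.AF.TT (Pool.Agent.Helper96.AF.ext ε) ω (Pool.Agent.Helper96.AF.Y (r + 1))) n := by
          rw [eM, Nat.floor_natCast]
          unfold Pool.Agent.Helper96.AF.MM
          refine Finset.sum_congr rfl fun m hm' => ?_
          exact Pool.Agent.Helper96.AF.rs_eq _ _ hpm _ _
            ((Finset.mem_Icc.1 hm').2.trans (Finset.mem_Icc.1 hn).2)
        have k2 : L (completely fun p => ε p ω) (n : ℝ) = Pool.Agent.Helper96.AG.GM
            (Pool.Agent.Helper96.AF.TT (Pool.Agent.Helper96.AF.ext ε) ω (Pool.Agent.Helper96.AF.Y (r + 1))) n := by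
          rw [eL, Nat.floor_natCast]
          unfold Pool.Agent.Helper96.AG.GM
          refine Finset.sum_congr rfl fun m hm' => ?_
          exact Pool.Agent.Helper96.AG.gs_eq _ _ hpm _ _
            ((Finset.mem_Icc.1 hm').2.trans (Finset.mem_Icc.1 hn).2)
        rw [k1, k2]
        exact hn2)
    refine ⟨X0, fun X hX a b => ?_⟩
    obtain ⟨x, x1, x2, x3, x4⟩ := h0 X hX a b
    refine ⟨x, x1, x2, le_trans ?_ x4⟩
    refine mul_le_mul_of_nonneg_left ?_ (by positivity)
    refine mul_le_mul_of_nonneg_left ?_ (Real.sqrt_nonneg _)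
    exact Real.rpow_le_rpow_of_exponent_le x3 (by linarith [min_le_left (δ / 2) (1 / 16)])

/-- The conclusion for one choice of the signs. -/
def Good (δ : ℝ) (s : Nat.Primes → ℝ) : Prop :=
  (∃ C : ℝ, ∀ x : ℝ, 3 ≤ x →
    |M (completely s) x| ≤ C * Real.sqrt x * Real.log (Real.log x) ^ (1 / 4 + δ) ∧
    |L (completely s) x| ≤ C * Real.sqrt x * Real.log (Real.log x) ^ (1 / 4 + δ)) ∧
  (∃ X0 : ℝ, ∀ X : ℝ, X0 ≤ X → ∀ a b : ℝ, ∃ x : ℝ, X ≤ x ∧ x ≤ X ^ 4 ∧
    (|a| + |b|) * (Real.sqrt x * Real.log (Real.log x) ^ (1 / 4 - δ)) ≤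
      a * M (completely s) x + b * L (completely s) x)

theorem result (δ : ℝ) (hδ : 0 < δ) {Ω : Type*} [MeasurableSpace Ω] (P : Measure Ω) [IsProbabilityMeasure P]
    (ε : Nat.Primes → Ω → ℝ) (hm : ∀ p, Measurable (ε p)) (hi : iIndepFun ε P)
    (hv : ∀ p, P {ω | ε p ω = 1} + P {ω | ε p ω = -1} = 1)
    (hs : Summable fun p => ((P {ω | ε p ω = 1}).toReal - 1 / 2) ^ 2) :
    ∀ᵐ ω ∂P,
      (∃ C : ℝ, ∀ x : ℝ, 3 ≤ x →
        |M (completely fun p => ε p ω) x| ≤ C * Real.sqrt x * Real.log (Real.log x) ^ (1 / 4 + δ) ∧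
        |L (completely fun p => ε p ω) x| ≤ C * Real.sqrt x * Real.log (Real.log x) ^ (1 / 4 + δ)) ∧
      (∃ X0 : ℝ, ∀ X : ℝ, X0 ≤ X → ∀ a b : ℝ, ∃ x : ℝ, X ≤ x ∧ x ≤ X ^ 4 ∧
        (|a| + |b|) * (Real.sqrt x * Real.log (Real.log x) ^ (1 / 4 - δ)) ≤
          a * M (completely fun p => ε p ω) x + b * L (completely fun p => ε p ω) x) :=
  Pool.Agent.Helper32.KK.transfer_uniform (Good δ) (fun P _ ε hm hi h1 h2 => uniform δ hδ P ε hm hi h1 h2) P ε hm hi hv hs

end Pool.Agent.Results.MP_a499ba_nt.RandomModels
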